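import Pool.Agent.Helper20.P3F.St1
import Pool.Agent.Helper60.EQ.M_NVD

/-!
# Project P3F (MP_cb927e_an): module NVD3 (numbers), adapted from EQ.M_NVD (helper60)
-/

set_option autoImplicit false

open MeasureTheory Set Filter Topology
open scoped ENNReal RealInnerProductSpace

namespace Pool.Agent.Helper81.P3F

open Pool.Agent.Helper20.RG Pool.Agent.Helper20.EQ Pool.Agent.Helper20.P3F
open Pool.Agent.Helper68.LM (Pl BB Bd Av HL ft fm DQ)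
open Pool.Agent.Helper60.EQ (w_bd nv_one nv_two)

/-- the final bound -/
theorem fin_bd (e Cf C₂ C₁ : ℝ) (κ Cρ u v t ρ : ℕ) (η m₁ nvv V : ℝ) (hκ : 1 ≤ κ) (he : 0 < e)
    (he2 : e ≤ 1 / (100 * ((κ : ℝ) + 1)))
    (hCf : 1 ≤ Cf) (hC₂ : 0 < C₂) (hC₁ : 0 < C₁) (hNu : Nue e κ Cρ u v t ρ η m₁)
    (h : nvv * V ≤ C₁ * (v : ℝ) ^ 6 * (2 : ℝ) ^ (2 * (ρ : ℝ)) * (2 : ℝ) ^ ((3 : ℝ) * u)) :
    16 * v * (C₂ * nvv * (64 * (16 * Cf * (4 : ℝ) ^ ((t : ℤ) - u - ρ) / η ^ 2)) / m₁ ^ 3) * V ≤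
      (2 * (16 * 64 * 16 * 16 * 1000 * C₂ * Cf * C₁ * ((Cρ : ℝ) + 1) ^ 10)) * (2 : ℝ) ^ tge e u t ρ := by
  obtain ⟨hu, hv, hut, htu, hρ, hη, hm, hκu⟩ := hNu
  have hu' : (2 : ℝ) ≤ u := by exact_mod_cast hu
  have hv1 : 1 ≤ v := by
    rw [hv]
    nlinarith
  have hv' : (1 : ℝ) ≤ v := by exact_mod_cast hv1
  have h2 : (0 : ℝ) < 2 := by norm_num
  have hκ' : (1 : ℝ) ≤ κ := by exact_mod_cast hκ
  have he3 : e * ((κ : ℝ) + 1) ≤ 1 / 100 := by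
    rw [le_div_iff₀ (by positivity)] at he2
    linarith
  -- the factor with η
  have hη2 : (4 : ℝ) ^ ((t : ℤ) - u - ρ) / η ^ 2 = 16 * (2 : ℝ) ^ (2 * ((t : ℝ) - u)) := by
    have e4 : (4 : ℝ) = (2 : ℝ) ^ (2 : ℤ) := by norm_num
    have e16 : (16 : ℝ) = (2 : ℝ) ^ (4 : ℤ) := by norm_num
    have er : (2 : ℝ) ^ (2 * ((t : ℝ) - u)) = (2 : ℝ) ^ (2 * ((t : ℤ) - u)) := by
      rw [← Real.rpow_intCast]
      congr 1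
      push_cast
      ring
    rw [er, hη, e4, ← zpow_mul, e16, ← zpow_add₀ h2.ne', ← zpow_natCast ((2 : ℝ) ^ (-((ρ : ℤ) + 2))) 2,
      ← zpow_mul, ← zpow_sub₀ h2.ne']
    congr 1
    push_cast
    ring
  -- the factor with m₁
  have hm3 : 1 / m₁ ^ 3 ≤ 1000 * (v : ℝ) ^ 3 * (2 : ℝ) ^ (-(3 * ((1 - e) * t))) := by
    have e1' : 1 / m₁ ^ 3 = (2 * (3 * (v : ℝ) + 2)) ^ 3 * (2 : ℝ) ^ (-(3 * ((1 - e) * t))) := by
      have e2 : (2 : ℝ) ^ (-(3 * ((1 - e) * t))) = ((2 : ℝ) ^ ((1 - e) * t))⁻¹ ^ 3 := by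
        rw [← Real.rpow_neg h2.le, ← Real.rpow_natCast ((2 : ℝ) ^ (-((1 - e) * (t : ℝ)))) 3,
          ← Real.rpow_mul h2.le]
        congr 1
        push_cast
        ring
      rw [e2, hm]
      have e3 : (0 : ℝ) < (2 : ℝ) ^ ((1 - e) * t) := by positivity
      field_simp
    rw [e1']
    apply mul_le_mul_of_nonneg_right _ (by positivity)
    have e3 : 2 * (3 * (v : ℝ) + 2) ≤ 10 * v := by linarith
    calc (2 * (3 * (v : ℝ) + 2)) ^ 3 ≤ (10 * (v : ℝ)) ^ 3 := by gcongr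
      _ = 1000 * (v : ℝ) ^ 3 := by ring
  have hm0 : 0 < m₁ := by
    rw [hm]
    positivity
  have hv10 : (v : ℝ) ^ 10 ≤ ((Cρ : ℝ) + 1) ^ 10 * (2 : ℝ) ^ (10 * ((e / 20) * t)) := by
    have e1' : (v : ℝ) = ((Cρ : ℝ) + 1) * u := by
      rw [hv]
      push_cast
      ring
    have e2 : (2 : ℝ) ^ (10 * ((e / 20) * t)) = ((2 : ℝ) ^ ((e / 20) * t)) ^ 10 := by
      rw [← Real.rpow_natCast ((2 : ℝ) ^ ((e / 20) * (t : ℝ))) 10, ← Real.rpow_mul h2.le]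
      congr 1
      push_cast
      ring
    rw [e1', e2, mul_pow]
    gcongr
  have hex : (2 : ℝ) ^ (10 * ((e / 20) * t)) * ((2 : ℝ) ^ (2 * ((t : ℝ) - u)) *
      (2 : ℝ) ^ (-(3 * ((1 - e) * t))) * (2 : ℝ) ^ (2 * (ρ : ℝ)) * (2 : ℝ) ^ ((3 : ℝ) * u)) ≤
      2 * (2 : ℝ) ^ tge e u t ρ := by
    have hstep : (2 : ℝ) * (2 : ℝ) ^ tge e u t ρ = (2 : ℝ) ^ (1 + tge e u t ρ) := by
      rw [Real.rpow_add h2, Real.rpow_one]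
    rw [hstep, ← Real.rpow_add h2, ← Real.rpow_add h2, ← Real.rpow_add h2, ← Real.rpow_add h2]
    apply Real.rpow_le_rpow_of_exponent_le (by norm_num)
    unfold tge
    have ht0 : (0 : ℝ) ≤ t := by positivity
    have hκ0 : (0 : ℝ) < κ := by linarith
    have key : (κ : ℝ) * (2 * (t : ℝ) - 2 * u - ρ + 9 / 2 * (e * t)) ≤ κ * 1 := by
      have h5 : (κ : ℝ) * ((t : ℝ) - u) ≤ κ * (e * t) :=
        mul_le_mul_of_nonneg_left (by linarith) hκ0.le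
      have h6 : e * ((κ : ℝ) + 1) * t ≤ 1 / 100 * t := mul_le_mul_of_nonneg_right he3 ht0
      have h7 : 0 ≤ e * t := mul_nonneg he.le ht0
      nlinarith
    have key2 := le_of_mul_le_mul_left key hκ0
    linarith
  have hE : 16 * v * (C₂ * nvv * (64 * (16 * Cf * (4 : ℝ) ^ ((t : ℤ) - u - ρ) / η ^ 2)) / m₁ ^ 3) * V =
      (16 * 64 * 16 * C₂ * Cf * v) * ((4 : ℝ) ^ ((t : ℤ) - u - ρ) / η ^ 2) * ((1 / m₁ ^ 3) * (nvv * V)) := by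
    ring
  rw [hE, hη2]
  have h7 : (1 / m₁ ^ 3) * (nvv * V) ≤ (1000 * (v : ℝ) ^ 3 * (2 : ℝ) ^ (-(3 * ((1 - e) * t)))) *
      (C₁ * (v : ℝ) ^ 6 * (2 : ℝ) ^ (2 * (ρ : ℝ)) * (2 : ℝ) ^ ((3 : ℝ) * u)) := by
    calc (1 / m₁ ^ 3) * (nvv * V) ≤ (1 / m₁ ^ 3) *
        (C₁ * (v : ℝ) ^ 6 * (2 : ℝ) ^ (2 * (ρ : ℝ)) * (2 : ℝ) ^ ((3 : ℝ) * u)) :=
          mul_le_mul_of_nonneg_left h (by positivity)
      _ ≤ _ := mul_le_mul_of_nonneg_right hm3 (by positivity)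
  calc (16 * 64 * 16 * C₂ * Cf * v) * (16 * (2 : ℝ) ^ (2 * ((t : ℝ) - u))) * ((1 / m₁ ^ 3) * (nvv * V))
      ≤ (16 * 64 * 16 * C₂ * Cf * v) * (16 * (2 : ℝ) ^ (2 * ((t : ℝ) - u))) *
        ((1000 * (v : ℝ) ^ 3 * (2 : ℝ) ^ (-(3 * ((1 - e) * t)))) *
          (C₁ * (v : ℝ) ^ 6 * (2 : ℝ) ^ (2 * (ρ : ℝ)) * (2 : ℝ) ^ ((3 : ℝ) * u))) :=
        mul_le_mul_of_nonneg_left h7 (by positivity)
    _ = (16 * 64 * 16 * 16 * 1000 * C₂ * Cf * C₁) * ((v : ℝ) ^ 10 * ((2 : ℝ) ^ (2 * ((t : ℝ) - u)) *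
      (2 : ℝ) ^ (-(3 * ((1 - e) * t))) * (2 : ℝ) ^ (2 * (ρ : ℝ)) * (2 : ℝ) ^ ((3 : ℝ) * u))) := by ring
    _ ≤ (16 * 64 * 16 * 16 * 1000 * C₂ * Cf * C₁) * ((((Cρ : ℝ) + 1) ^ 10 * (2 : ℝ) ^ (10 * ((e / 20) * t))) *
      ((2 : ℝ) ^ (2 * ((t : ℝ) - u)) *
      (2 : ℝ) ^ (-(3 * ((1 - e) * t))) * (2 : ℝ) ^ (2 * (ρ : ℝ)) * (2 : ℝ) ^ ((3 : ℝ) * u))) := by gcongr
    _ = (16 * 64 * 16 * 16 * 1000 * C₂ * Cf * C₁ * ((Cρ : ℝ) + 1) ^ 10) * ((2 : ℝ) ^ (10 * ((e / 20) * t)) *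
      ((2 : ℝ) ^ (2 * ((t : ℝ) - u)) *
      (2 : ℝ) ^ (-(3 * ((1 - e) * t))) * (2 : ℝ) ^ (2 * (ρ : ℝ)) * (2 : ℝ) ^ ((3 : ℝ) * u))) := by ring
    _ ≤ (16 * 64 * 16 * 16 * 1000 * C₂ * Cf * C₁ * ((Cρ : ℝ) + 1) ^ 10) * (2 * (2 : ℝ) ^ tge e u t ρ) :=
      mul_le_mul_of_nonneg_left hex (by positivity)
    _ = _ := by ring

theorem hNVD3 : StNVD3 := by
  intro Cf A C₂ e κ Cρ hCf hA hC₂ hκ he he2
  obtain ⟨C₁, hC₁⟩ : ∃ C₁, C₁ = 256 * 4096 * 16 * Cf * (Cf + 2) * ((1 + 512 * A) * (3 + A)) := ⟨_, rfl⟩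
  have hC₁0 : 0 < C₁ := by rw [hC₁]; positivity
  refine ⟨0, 2 * (16 * 64 * 16 * 16 * 1000 * C₂ * Cf * C₁ * ((Cρ : ℝ) + 1) ^ 10), by positivity, ?_⟩
  intro u v t ρ η m₁ K b _ hNu hK0 hK hb1 hb
  have hNu' := hNu
  obtain ⟨hu, hv, hut, htu, hρ, hη, hm, _⟩ := hNu'
  have hu' : (2 : ℝ) ≤ u := by exact_mod_cast hu
  have hv1 : 1 ≤ v := by
    rw [hv]
    nlinarith
  have huv : u ≤ v := by
    rw [hv]
    nlinarith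
  have hv' : (1 : ℝ) ≤ v := by exact_mod_cast hv1
  have h2 : (0 : ℝ) < 2 := by norm_num
  have hN : ((2 : ℝ) ^ u) ^ (3 : ℝ) = (2 : ℝ) ^ ((3 : ℝ) * u) := by
    rw [← Real.rpow_natCast, ← Real.rpow_mul h2.le, mul_comm]
  have hN1 : (1 : ℝ) ≤ (2 : ℝ) ^ ((3 : ℝ) * u) := by
    rw [← hN]
    exact Real.one_le_rpow (one_le_pow₀ (by norm_num)) (by norm_num)
  have hρ2 : (1 / η) ^ 2 = 16 * (2 : ℝ) ^ (2 * (ρ : ℝ)) := by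
    have e16 : (16 : ℝ) = (2 : ℝ) ^ (4 : ℤ) := by norm_num
    have er : (2 : ℝ) ^ (2 * (ρ : ℝ)) = (2 : ℝ) ^ (2 * (ρ : ℤ)) := by
      rw [← Real.rpow_intCast]
      congr 1
      push_cast
      ring
    rw [er, hη, one_div, ← zpow_neg, e16, ← zpow_add₀ h2.ne', ← zpow_natCast, ← zpow_mul]
    congr 1
    push_cast
    ring
  have hη0 : 0 < η := by rw [hη]; positivity
  by_cases hcase : ((2 : ℝ) ^ u) ^ (3 : ℝ) ≤ (2 : ℝ) ^ b * (1024 * (v : ℝ) ^ 2)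
  · -- first choice of V
    refine ⟨(4 / η) ^ 2 * (Cf * (K + v + 1)), by positivity, Or.inl rfl, ?_⟩
    refine fin_bd e Cf C₂ C₁ κ Cρ u v t ρ η m₁ _ _ hκ he he2 hCf hC₂ hC₁0 hNu ?_
    have h3 := nv_one u v b A 3 hv1 (by norm_num) hA hcase
    have h4 : (4 / η) ^ 2 = 256 * (2 : ℝ) ^ (2 * (ρ : ℝ)) := by
      calc (4 / η) ^ 2 = 16 * (1 / η) ^ 2 := by ring
        _ = _ := by rw [hρ2]; ring
    have h5 : K + v + 1 ≤ (Cf + 2) * v * (2 : ℝ) ^ ((3 : ℝ) * u) := by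
      have h6 : Cf * (2 : ℝ) ^ ((3 : ℝ) * u) ≤ Cf * v * (2 : ℝ) ^ ((3 : ℝ) * u) := by
        apply mul_le_mul_of_nonneg_right _ (by positivity)
        nlinarith
      have h7 : (v : ℝ) + 1 ≤ 2 * v * (2 : ℝ) ^ ((3 : ℝ) * u) := by nlinarith
      calc K + v + 1 = K + (v + 1) := by ring
        _ ≤ Cf * v * (2 : ℝ) ^ ((3 : ℝ) * u) + 2 * v * (2 : ℝ) ^ ((3 : ℝ) * u) := add_le_add (hK.trans h6) h7
        _ = _ := by ring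
    have h8 : nv u v b A 3 * ((4 / η) ^ 2 * (Cf * (K + v + 1))) ≤
        ((1 + 512 * A) * v) * ((256 * (2 : ℝ) ^ (2 * (ρ : ℝ))) *
          (Cf * ((Cf + 2) * v * (2 : ℝ) ^ ((3 : ℝ) * u)))) := by
      rw [h4]
      apply mul_le_mul h3 _ (by positivity) (by positivity)
      gcongr
    refine h8.trans ?_
    have h9 : (v : ℝ) ^ 2 ≤ (v : ℝ) ^ 6 := pow_le_pow_right₀ hv' (by norm_num)
    have h10 : (1 + 512 * A) * (256 * Cf * (Cf + 2)) ≤ C₁ := by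
      rw [hC₁]
      have h11 : 0 ≤ (1 + 512 * A) * (256 * Cf * (Cf + 2)) := by positivity
      have h12 : 1 ≤ 4096 * 16 * (3 + A) := by linarith
      calc (1 + 512 * A) * (256 * Cf * (Cf + 2))
          ≤ (1 + 512 * A) * (256 * Cf * (Cf + 2)) * (4096 * 16 * (3 + A)) :=
            le_mul_of_one_le_right h11 h12
        _ = _ := by ring
    calc ((1 + 512 * A) * v) * ((256 * (2 : ℝ) ^ (2 * (ρ : ℝ))) *
          (Cf * ((Cf + 2) * v * (2 : ℝ) ^ ((3 : ℝ) * u))))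
        = ((1 + 512 * A) * (256 * Cf * (Cf + 2))) * (v : ℝ) ^ 2 * (2 : ℝ) ^ (2 * (ρ : ℝ)) *
          (2 : ℝ) ^ ((3 : ℝ) * u) := by ring
      _ ≤ C₁ * (v : ℝ) ^ 6 * (2 : ℝ) ^ (2 * (ρ : ℝ)) * (2 : ℝ) ^ ((3 : ℝ) * u) := by gcongr
  · push Not at hcase
    -- `b ≤ 3 v`
    have hb3 : b ≤ 3 * v := by
      by_contra hcon
      have hb' : b = 3 * v + 1 := by omega
      have h3 : ((2 : ℝ) ^ u) ^ (3 : ℝ) ≤ (2 : ℝ) ^ (3 * u) := by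
        rw [hN, ← Real.rpow_natCast]
        apply Real.rpow_le_rpow_of_exponent_le (by norm_num)
        push_cast
        nlinarith
      have h4 : (2 : ℝ) ^ (3 * u) ≤ (2 : ℝ) ^ b := pow_le_pow_right₀ (by norm_num) (by omega)
      have h5 : (2 : ℝ) ^ b ≤ (2 : ℝ) ^ b * (1024 * (v : ℝ) ^ 2) := by
        apply le_mul_of_one_le_right (by positivity)
        nlinarith
      linarith
    obtain ⟨T, hT, hTb⟩ := nv_two u v b A 3 hv1 (by norm_num) hA hcase.le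
    have hmu0 : 0 ≤ mu u A 3 ((2 : ℝ) ^ b * (1024 * (v : ℝ) ^ 2)) T := by
      unfold mu
      positivity
    have hMs : 0 ≤ Ms v := by unfold Ms; positivity
    refine ⟨(4 * Ms v / η) ^ 2 * (16 * v * (Cf * mu u A 3 ((2 : ℝ) ^ b * (1024 * (v : ℝ) ^ 2)) T)),
      by positivity, Or.inr ⟨hb3, T, hT, rfl⟩, ?_⟩
    refine fin_bd e Cf C₂ C₁ κ Cρ u v t ρ η m₁ _ _ hκ he he2 hCf hC₂ hC₁0 hNu ?_
    have h4 : (4 * Ms v / η) ^ 2 = 256 * Ms v ^ 2 * (2 : ℝ) ^ (2 * (ρ : ℝ)) := by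
      calc (4 * Ms v / η) ^ 2 = 16 * Ms v ^ 2 * (1 / η) ^ 2 := by ring
        _ = _ := by rw [hρ2]; ring
    have h5 : Ms v ≤ 64 * (v : ℝ) ^ 2 := by
      unfold Ms
      nlinarith
    have h6 : Ms v ^ 2 ≤ 4096 * (v : ℝ) ^ 4 := by
      calc Ms v ^ 2 ≤ (64 * (v : ℝ) ^ 2) ^ 2 := by gcongr
        _ = _ := by ring
    rw [h4]
    have h7 : nv u v b A 3 * (256 * Ms v ^ 2 * (2 : ℝ) ^ (2 * (ρ : ℝ)) *
        (16 * v * (Cf * mu u A 3 ((2 : ℝ) ^ b * (1024 * (v : ℝ) ^ 2)) T))) =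
        (256 * 16 * Cf * v * (2 : ℝ) ^ (2 * (ρ : ℝ))) * Ms v ^ 2 *
          (nv u v b A 3 * mu u A 3 ((2 : ℝ) ^ b * (1024 * (v : ℝ) ^ 2)) T) := by ring
    rw [h7, ← hN]
    have hnv0 : 0 ≤ nv u v b A 3 := by
      unfold nv
      positivity
    calc (256 * 16 * Cf * v * (2 : ℝ) ^ (2 * (ρ : ℝ))) * Ms v ^ 2 *
          (nv u v b A 3 * mu u A 3 ((2 : ℝ) ^ b * (1024 * (v : ℝ) ^ 2)) T)
        ≤ (256 * 16 * Cf * v * (2 : ℝ) ^ (2 * (ρ : ℝ))) * (4096 * (v : ℝ) ^ 4) *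
          ((1 + 512 * A) * (3 + A) * v * ((2 : ℝ) ^ u) ^ (3 : ℝ)) := by
          apply mul_le_mul _ hTb (mul_nonneg hnv0 hmu0) (by positivity)
          gcongr
      _ = (256 * 4096 * 16 * Cf * 1 * ((1 + 512 * A) * (3 + A))) * (v : ℝ) ^ 6 *
          (2 : ℝ) ^ (2 * (ρ : ℝ)) * ((2 : ℝ) ^ u) ^ (3 : ℝ) := by ring
      _ ≤ C₁ * (v : ℝ) ^ 6 * (2 : ℝ) ^ (2 * (ρ : ℝ)) * ((2 : ℝ) ^ u) ^ (3 : ℝ) := by
          rw [hC₁]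
          gcongr
          linarith

end Pool.Agent.Helper81.P3F
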